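import Pool.Agent.Lib.MP_c618e1_lc.Basic

/-!
Addition of surreal numbers given by their sign expansions: No is an ordered abelian group.
-/

universe u

namespace Pool.Agent.Lib.MP_c618e1_lc

open Ordinal

namespace No

instance : Zero No.{u} := ⟨⟨fun _ => 0, 0, fun β => by simp⟩⟩

/-- The number one: the sign expansion consisting of a single plus. -/
noncomputable instance : One No.{u} :=
  ⟨⟨fun β => if β < 1 then 1 else 0, 1, fun β => by
    by_cases h : β < 1
    · simp only [h, if_true, not_le.2 h, iff_false]; decide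
    · simp only [h, if_false, true_iff]; exact not_lt.1 h⟩⟩

/-- Negation reverses all signs. -/
instance : Neg No.{u} :=
  ⟨fun x => ⟨fun β => - x.sgn β, by
    obtain ⟨α, hα⟩ := x.exists_len
    refine ⟨α, fun β => ?_⟩
    rw [← hα β]
    cases x.sgn β <;> decide⟩⟩

theorem zero_sgn (β : Ordinal.{u}) : (0 : No.{u}).sgn β = 0 := rfl

theorem neg_sgn (x : No.{u}) (β : Ordinal.{u}) : (-x).sgn β = - x.sgn β := rfl

/-- **Addition** (Conway): `x + y` is the simplest number `z` with `a + y < z` and `x + b < z` for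
all `a < x` simpler than `x` and all `b < y` simpler than `y`, and with `z < a + y` and `z < x + b`
for all `a > x` simpler than `x` and all `b > y` simpler than `y`. -/
noncomputable def add (x y : No.{u}) : No.{u} :=
  simplest {z | (∀ a, Simpler a x → (a < x → add a y < z) ∧ (x < a → z < add a y)) ∧
    (∀ b, Simpler b y → (b < y → add x b < z) ∧ (y < b → z < add x b))}
termination_by (x.len, y.len)
decreasing_by
  all_goals first
    | exact Prod.Lex.left _ _ (Simpler.len_lt ‹_›)
    | exact Prod.Lex.right _ (Simpler.len_lt ‹_›)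

noncomputable instance : Add No.{u} := ⟨add⟩

/-- The set of numbers between the options of `x + y`. -/
def AddSet (x y : No.{u}) : Set No.{u} :=
  {z | (∀ a, Simpler a x → (a < x → a + y < z) ∧ (x < a → z < a + y)) ∧
    (∀ b, Simpler b y → (b < y → x + b < z) ∧ (y < b → z < x + b))}

theorem add_eq (x y : No.{u}) : x + y = simplest (AddSet x y) := by
  change add x y = _
  rw [add]
  rfl

theorem AddSet_conv (x y : No.{u}) :
    ∀ a ∈ AddSet x y, ∀ b ∈ AddSet x y, ∀ c, a < c → c < b → c ∈ AddSet x y := by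
  intro a ha b hb c hac hcb
  refine ⟨fun d hd => ⟨fun h => ((ha.1 d hd).1 h).trans hac, fun h => hcb.trans ((hb.1 d hd).2 h)⟩,
    fun d hd => ⟨fun h => ((ha.2 d hd).1 h).trans hac, fun h => hcb.trans ((hb.2 d hd).2 h)⟩⟩

theorem mono_left_aux {x x' y : No.{u}} (h : x < x') (hx : x + y ∈ AddSet x y)
    (hx' : x' + y ∈ AddSet x' y) : x + y < x' + y := by
  obtain ⟨v, hv, hv', h1, h2⟩ := exists_mid h
  rcases eq_or_lt_of_le h1 with h3 | h3
  · subst h3
    exact (hx'.1 x ⟨hv', h.ne⟩).1 h
  · have h4 := (hx.1 v ⟨hv, h3.ne'⟩).2 h3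
    rcases eq_or_lt_of_le h2 with h5 | h5
    · rw [← h5]; exact h4
    · exact h4.trans ((hx'.1 v ⟨hv', h5.ne⟩).1 h5)

theorem mono_right_aux {x y y' : No.{u}} (h : y < y') (hx : x + y ∈ AddSet x y)
    (hx' : x + y' ∈ AddSet x y') : x + y < x + y' := by
  obtain ⟨v, hv, hv', h1, h2⟩ := exists_mid h
  rcases eq_or_lt_of_le h1 with h3 | h3
  · subst h3
    exact (hx'.2 y ⟨hv', h.ne⟩).1 h
  · have h4 := (hx.2 v ⟨hv, h3.ne'⟩).2 h3
    rcases eq_or_lt_of_le h2 with h5 | h5
    · rw [← h5]; exact h4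
    · exact h4.trans ((hx'.2 v ⟨hv', h5.ne⟩).1 h5)

theorem add_spec (x y : No.{u}) : IsSimplest (AddSet x y) (x + y) := by
  have ih1 : ∀ a, Simpler a x → a + y ∈ AddSet a y := fun a ha => (add_spec a y).1
  have ih2 : ∀ b, Simpler b y → x + b ∈ AddSet x b := fun b hb => (add_spec x b).1
  have ih3 : ∀ a b, Simpler a x → Simpler b y → a + b ∈ AddSet a b :=
    fun a b ha hb => (add_spec a b).1
  have hne : (AddSet x y).Nonempty := by
    let L1 : Set No.{u} := (fun a => a + y) '' {a | Simpler a x ∧ a < x}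
    let L2 : Set No.{u} := (fun b => x + b) '' {b | Simpler b y ∧ b < y}
    let R1 : Set No.{u} := (fun a => a + y) '' {a | Simpler a x ∧ x < a}
    let R2 : Set No.{u} := (fun b => x + b) '' {b | Simpler b y ∧ y < b}
    have t1 : {a | Simpler a x ∧ a < x} ⊆ {a : No.{u} | Simpler a x} := fun a ha => ha.1
    have t2 : {a | Simpler a x ∧ x < a} ⊆ {a : No.{u} | Simpler a x} := fun a ha => ha.1
    have t3 : {b | Simpler b y ∧ b < y} ⊆ {a : No.{u} | Simpler a y} := fun a ha => ha.1
    have t4 : {b | Simpler b y ∧ y < b} ⊆ {a : No.{u} | Simpler a y} := fun a ha => ha.1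
    have s1 := small_subset t1
    have s2 := small_subset t2
    have s3 := small_subset t3
    have s4 := small_subset t4
    have : Small.{u} (L1 ∪ L2 : Set No.{u}) := by
      have : Small.{u} L1 := small_image _ _
      have : Small.{u} L2 := small_image _ _
      exact small_union _ _
    have : Small.{u} (R1 ∪ R2 : Set No.{u}) := by
      have : Small.{u} R1 := small_image _ _
      have : Small.{u} R2 := small_image _ _
      exact small_union _ _
    obtain ⟨z, hz1, hz2⟩ := exists_between (L1 ∪ L2) (R1 ∪ R2) (by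
      rintro l (⟨a, ⟨ha, hax⟩, rfl⟩ | ⟨b, ⟨hb, hby⟩, rfl⟩) r
        (⟨a', ⟨ha', hax'⟩, rfl⟩ | ⟨b', ⟨hb', hby'⟩, rfl⟩)
      · exact mono_left_aux (hax.trans hax') (ih1 a ha) (ih1 a' ha')
      · exact (mono_right_aux hby' (ih1 a ha) (ih3 a b' ha hb')).trans
          (((ih2 b' hb').1 a ha).1 hax)
      · exact (((ih2 b hb).1 a' ha').2 hax').trans
          (mono_right_aux hby (ih3 a' b ha' hb) (ih1 a' ha'))
      · exact mono_right_aux (hby.trans hby') (ih2 b hb) (ih2 b' hb'))
    refine ⟨z, fun a ha => ⟨fun h => ?_, fun h => ?_⟩, fun b hb => ⟨fun h => ?_, fun h => ?_⟩⟩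
    · exact hz1 _ (Or.inl ⟨a, ⟨ha, h⟩, rfl⟩)
    · exact hz2 _ (Or.inl ⟨a, ⟨ha, h⟩, rfl⟩)
    · exact hz1 _ (Or.inr ⟨b, ⟨hb, h⟩, rfl⟩)
    · exact hz2 _ (Or.inr ⟨b, ⟨hb, h⟩, rfl⟩)
  rw [add_eq]
  exact simplest_spec (exists_isSimplest hne (AddSet_conv x y))
termination_by (x.len, y.len)
decreasing_by
  all_goals first
    | exact Prod.Lex.left _ _ (Simpler.len_lt ‹Simpler _ x›)
    | exact Prod.Lex.right _ (Simpler.len_lt ‹Simpler _ y›)

theorem add_lt_add_right' {x x' : No.{u}} (h : x < x') (y : No.{u}) : x + y < x' + y :=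
  mono_left_aux h (add_spec x y).1 (add_spec x' y).1

theorem add_lt_add_left' {y y' : No.{u}} (h : y < y') (x : No.{u}) : x + y < x + y' :=
  mono_right_aux h (add_spec x y).1 (add_spec x y').1

theorem add_le_add_right' {x x' : No.{u}} (h : x ≤ x') (y : No.{u}) : x + y ≤ x' + y := by
  rcases eq_or_lt_of_le h with h | h
  · rw [h]
  · exact (add_lt_add_right' h y).le

theorem add_le_add_left' {y y' : No.{u}} (h : y ≤ y') (x : No.{u}) : x + y ≤ x + y' := by
  rcases eq_or_lt_of_le h with h | h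
  · rw [h]
  · exact (add_lt_add_left' h x).le

/-- How to recognise `x + y`. -/
theorem add_eq_of {x y w : No.{u}} (h : w ∈ AddSet x y) (h' : ∀ d, Simpler d w → d ∉ AddSet x y) :
    x + y = w := by
  by_contra hne
  exact h' _ ⟨(add_spec x y).2 w h, hne⟩ (add_spec x y).1

/-- A number simpler than `x + y` and below it is bounded by a left option of the sum. -/
theorem exists_left_option {x y d : No.{u}} (hd : Simpler d (x + y)) (hlt : d < x + y) :
    (∃ a, Simpler a x ∧ a < x ∧ d ≤ a + y) ∨ (∃ b, Simpler b y ∧ b < y ∧ d ≤ x + b) := by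
  by_contra hc
  push Not at hc
  have hmem : d ∈ AddSet x y := by
    refine ⟨fun a ha => ⟨fun h => hc.1 a ha h, fun h => ?_⟩,
      fun b hb => ⟨fun h => hc.2 b hb h, fun h => ?_⟩⟩
    · exact hlt.trans (add_lt_add_right' h y)
    · exact hlt.trans (add_lt_add_left' h x)
  exact hd.2 (hd.1.antisymm ((add_spec x y).2 d hmem))

theorem exists_right_option {x y d : No.{u}} (hd : Simpler d (x + y)) (hlt : x + y < d) :
    (∃ a, Simpler a x ∧ x < a ∧ a + y ≤ d) ∨ (∃ b, Simpler b y ∧ y < b ∧ x + b ≤ d) := by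
  by_contra hc
  push Not at hc
  have hmem : d ∈ AddSet x y := by
    refine ⟨fun a ha => ⟨fun h => ?_, fun h => hc.1 a ha h⟩,
      fun b hb => ⟨fun h => ?_, fun h => hc.2 b hb h⟩⟩
    · exact (add_lt_add_right' h y).trans hlt
    · exact (add_lt_add_left' h x).trans hlt
  exact hd.2 (hd.1.antisymm ((add_spec x y).2 d hmem))

theorem add_comm' (x y : No.{u}) : x + y = y + x := by
  have ih1 : ∀ a, Simpler a x → a + y = y + a := fun a ha => add_comm' a y
  have ih2 : ∀ b, Simpler b y → x + b = b + x := fun b hb => add_comm' x b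
  have : AddSet x y = AddSet y x := by
    ext z
    constructor
    · intro h
      refine ⟨fun b hb => ?_, fun a ha => ?_⟩
      · rw [← ih2 b hb]; exact h.2 b hb
      · rw [← ih1 a ha]; exact h.1 a ha
    · intro h
      refine ⟨fun a ha => ?_, fun b hb => ?_⟩
      · rw [ih1 a ha]; exact h.2 a ha
      · rw [ih2 b hb]; exact h.1 b hb
  rw [add_eq, this, ← add_eq]
termination_by (x.len, y.len)
decreasing_by
  all_goals first
    | exact Prod.Lex.left _ _ (Simpler.len_lt ‹Simpler _ x›)
    | exact Prod.Lex.right _ (Simpler.len_lt ‹Simpler _ y›)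

theorem isInit_zero (x : No.{u}) : IsInit 0 x := fun _ h => absurd rfl h

theorem eq_zero_of_isInit {x : No.{u}} (h : IsInit x 0) : x = 0 := h.antisymm (isInit_zero x)

theorem not_simpler_zero (x : No.{u}) : ¬ Simpler x 0 := fun h => h.2 (eq_zero_of_isInit h.1)

theorem add_zero' (x : No.{u}) : x + 0 = x := by
  have ih : ∀ a, Simpler a x → a + 0 = a := fun a ha => add_zero' a
  apply add_eq_of
  · refine ⟨fun a ha => ?_, fun b hb => absurd hb (not_simpler_zero b)⟩
    rw [ih a ha]
    exact ⟨id, id⟩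
  · intro d hd hmem
    have h := hmem.1 d hd
    rw [ih d hd] at h
    rcases lt_trichotomy d x with h1 | h1 | h1
    · exact lt_irrefl _ (h.1 h1)
    · exact hd.2 h1
    · exact lt_irrefl _ (h.2 h1)
termination_by x.len
decreasing_by exact Simpler.len_lt ‹Simpler _ x›

/-- the cut describing a sum of three numbers, bracketed to the left -/
def Add3L (x y z : No.{u}) : Set No.{u} :=
  {v | (∀ a, Simpler a x → (a < x → (a + y) + z < v) ∧ (x < a → v < (a + y) + z)) ∧
    (∀ b, Simpler b y → (b < y → (x + b) + z < v) ∧ (y < b → v < (x + b) + z)) ∧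
    (∀ c, Simpler c z → (c < z → (x + y) + c < v) ∧ (z < c → v < (x + y) + c))}

/-- the cut describing a sum of three numbers, bracketed to the right -/
def Add3R (x y z : No.{u}) : Set No.{u} :=
  {v | (∀ a, Simpler a x → (a < x → a + (y + z) < v) ∧ (x < a → v < a + (y + z))) ∧
    (∀ b, Simpler b y → (b < y → x + (b + z) < v) ∧ (y < b → v < x + (b + z))) ∧
    (∀ c, Simpler c z → (c < z → x + (y + c) < v) ∧ (z < c → v < x + (y + c)))}

theorem spec3L (x y z : No.{u}) : IsSimplest (Add3L x y z) ((x + y) + z) := by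
  refine ⟨⟨fun a _ => ⟨fun h => ?_, fun h => ?_⟩, fun b _ => ⟨fun h => ?_, fun h => ?_⟩,
    fun c _ => ⟨fun h => ?_, fun h => ?_⟩⟩, fun v hv => ?_⟩
  · exact add_lt_add_right' (add_lt_add_right' h y) z
  · exact add_lt_add_right' (add_lt_add_right' h y) z
  · exact add_lt_add_right' (add_lt_add_left' h x) z
  · exact add_lt_add_right' (add_lt_add_left' h x) z
  · exact add_lt_add_left' h _
  · exact add_lt_add_left' h _
  · apply (add_spec (x + y) z).2
    refine ⟨fun u hu => ⟨fun h => ?_, fun h => ?_⟩, fun c hc => hv.2.2 c hc⟩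
    · rcases exists_left_option hu h with ⟨a, ha, hax, hle⟩ | ⟨b, hb, hby, hle⟩
      · exact (add_le_add_right' hle z).trans_lt ((hv.1 a ha).1 hax)
      · exact (add_le_add_right' hle z).trans_lt ((hv.2.1 b hb).1 hby)
    · rcases exists_right_option hu h with ⟨a, ha, hax, hle⟩ | ⟨b, hb, hby, hle⟩
      · exact ((hv.1 a ha).2 hax).trans_le (add_le_add_right' hle z)
      · exact ((hv.2.1 b hb).2 hby).trans_le (add_le_add_right' hle z)

theorem spec3R (x y z : No.{u}) : IsSimplest (Add3R x y z) (x + (y + z)) := by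
  refine ⟨⟨fun a _ => ⟨fun h => ?_, fun h => ?_⟩, fun b _ => ⟨fun h => ?_, fun h => ?_⟩,
    fun c _ => ⟨fun h => ?_, fun h => ?_⟩⟩, fun v hv => ?_⟩
  · exact add_lt_add_right' h _
  · exact add_lt_add_right' h _
  · exact add_lt_add_left' (add_lt_add_right' h z) x
  · exact add_lt_add_left' (add_lt_add_right' h z) x
  · exact add_lt_add_left' (add_lt_add_left' h y) x
  · exact add_lt_add_left' (add_lt_add_left' h y) x
  · apply (add_spec x (y + z)).2
    refine ⟨fun a ha => hv.1 a ha, fun u hu => ⟨fun h => ?_, fun h => ?_⟩⟩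
    · rcases exists_left_option hu h with ⟨b, hb, hby, hle⟩ | ⟨c, hc, hcz, hle⟩
      · exact (add_le_add_left' hle x).trans_lt ((hv.2.1 b hb).1 hby)
      · exact (add_le_add_left' hle x).trans_lt ((hv.2.2 c hc).1 hcz)
    · rcases exists_right_option hu h with ⟨b, hb, hby, hle⟩ | ⟨c, hc, hcz, hle⟩
      · exact ((hv.2.1 b hb).2 hby).trans_le (add_le_add_left' hle x)
      · exact ((hv.2.2 c hc).2 hcz).trans_le (add_le_add_left' hle x)

theorem add_assoc' (x y z : No.{u}) : (x + y) + z = x + (y + z) := by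
  have ih1 : ∀ a, Simpler a x → (a + y) + z = a + (y + z) := fun a ha => add_assoc' a y z
  have ih2 : ∀ b, Simpler b y → (x + b) + z = x + (b + z) := fun b hb => add_assoc' x b z
  have ih3 : ∀ c, Simpler c z → (x + y) + c = x + (y + c) := fun c hc => add_assoc' x y c
  have : Add3L x y z = Add3R x y z := by
    ext v
    constructor
    · intro h
      refine ⟨fun a ha => ?_, fun b hb => ?_, fun c hc => ?_⟩
      · rw [← ih1 a ha]; exact h.1 a ha
      · rw [← ih2 b hb]; exact h.2.1 b hb
      · rw [← ih3 c hc]; exact h.2.2 c hc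
    · intro h
      refine ⟨fun a ha => ?_, fun b hb => ?_, fun c hc => ?_⟩
      · rw [ih1 a ha]; exact h.1 a ha
      · rw [ih2 b hb]; exact h.2.1 b hb
      · rw [ih3 c hc]; exact h.2.2 c hc
  have h1 := spec3L x y z
  rw [this] at h1
  exact h1.unique (spec3R x y z)
termination_by (x.len, y.len, z.len)
decreasing_by
  all_goals first
    | exact Prod.Lex.left _ _ (Simpler.len_lt ‹Simpler _ x›)
    | exact Prod.Lex.right _ (Prod.Lex.left _ _ (Simpler.len_lt ‹Simpler _ y›))
    | exact Prod.Lex.right _ (Prod.Lex.right _ (Simpler.len_lt ‹Simpler _ z›))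

theorem neg_neg' (x : No.{u}) : - -x = x := by
  apply ext_sgn
  intro β
  rw [neg_sgn, neg_sgn]
  cases x.sgn β <;> decide

theorem IsInit.neg {a x : No.{u}} (h : IsInit a x) : IsInit (-a) (-x) := by
  intro β hβ
  rw [neg_sgn, neg_sgn]
  rw [neg_sgn] at hβ
  rw [h β (fun h0 => hβ (by rw [h0]; decide))]

theorem Simpler.neg {a x : No.{u}} (h : Simpler a x) : Simpler (-a) (-x) := by
  refine ⟨h.1.neg, fun heq => h.2 ?_⟩
  rw [← neg_neg' a, heq, neg_neg']

theorem neg_lt_neg' {x y : No.{u}} (h : x < y) : -y < -x := by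
  obtain ⟨β, hβ, hlt⟩ := lt_iff.1 h
  refine lt_iff.2 ⟨β, fun γ hγ => by rw [neg_sgn, neg_sgn, hβ γ hγ], ?_⟩
  rw [neg_sgn, neg_sgn]
  revert hlt
  cases x.sgn β <;> cases y.sgn β <;> decide

theorem add_neg' (x : No.{u}) : x + -x = 0 := by
  have ih : ∀ a, Simpler a x → a + -a = 0 := fun a ha => add_neg' a
  apply eq_zero_of_isInit
  apply (add_spec x (-x)).2
  refine ⟨fun a ha => ⟨fun h => ?_, fun h => ?_⟩, fun b hb => ?_⟩
  · rw [← ih a ha]; exact add_lt_add_left' (neg_lt_neg' h) a
  · rw [← ih a ha]; exact add_lt_add_left' (neg_lt_neg' h) a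
  · have hb' : Simpler (-b) x := by
      have := hb.neg
      rwa [neg_neg'] at this
    have h1 := ih (-b) hb'
    rw [neg_neg'] at h1
    refine ⟨fun h => ?_, fun h => ?_⟩
    · have h2 := neg_lt_neg' h
      rw [neg_neg'] at h2
      rw [← h1]; exact add_lt_add_right' h2 b
    · have h2 := neg_lt_neg' h
      rw [neg_neg'] at h2
      rw [← h1]; exact add_lt_add_right' h2 b
termination_by x.len
decreasing_by exact Simpler.len_lt ‹Simpler _ x›

noncomputable instance : AddCommGroup No.{u} where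
  add_assoc := add_assoc'
  zero_add x := by rw [add_comm', add_zero']
  add_zero := add_zero'
  nsmul := nsmulRec
  zsmul := zsmulRec
  neg_add_cancel x := by rw [add_comm', add_neg']
  add_comm := add_comm'

instance : IsOrderedAddMonoid No.{u} where
  add_le_add_left _ _ h z := add_le_add_right' h z
  add_le_add_right _ _ h z := add_le_add_left' h z

end No

end Pool.Agent.Lib.MP_c618e1_lc
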