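import Mathlib

/-!
Surreal numbers as sign sequences (Conway, Gonshor): the order, the relation simpler than, and the
existence of the simplest surreal number in a cut.
-/

universe u

namespace Pool.Agent.Lib.MP_c618e1_lc

open Ordinal

/-- A surreal number, given by its sign expansion: a function from the ordinals to `{-1, 0, 1}`
which is nonzero exactly below some ordinal (the length of the expansion). -/
structure No : Type (u + 1) where
  /-- the sign expansion; the value `0` means that the expansion has already ended -/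
  sgn : Ordinal.{u} → SignType
  /-- the expansion has a length -/
  exists_len : ∃ α : Ordinal.{u}, ∀ β, sgn β = 0 ↔ α ≤ β

namespace No

theorem ext_sgn {x y : No.{u}} (h : ∀ β, x.sgn β = y.sgn β) : x = y := by
  cases x; cases y; congr; funext β; exact h β

/-- The length of the sign expansion. -/
noncomputable def len (x : No.{u}) : Ordinal.{u} := Classical.choose x.exists_len

theorem sgn_eq_zero_iff (x : No.{u}) (β : Ordinal.{u}) : x.sgn β = 0 ↔ x.len ≤ β :=
  Classical.choose_spec x.exists_len β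

theorem sgn_ne_zero_iff (x : No.{u}) (β : Ordinal.{u}) : x.sgn β ≠ 0 ↔ β < x.len := by
  rw [Ne, sgn_eq_zero_iff, not_le]

theorem len_eq_of {x : No.{u}} {α : Ordinal.{u}} (h : ∀ β, x.sgn β = 0 ↔ α ≤ β) : x.len = α := by
  apply le_antisymm
  · rw [← sgn_eq_zero_iff]; exact (h α).2 le_rfl
  · exact (h x.len).1 ((sgn_eq_zero_iff x x.len).2 le_rfl)

/-- The lexicographic order: `x < y` if at the first place `β` where the expansions differ the sign
of `x` is smaller than the sign of `y` (where `-1 < 0 < 1`). -/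
noncomputable instance : LinearOrder No.{u} :=
  LinearOrder.lift' (fun x : No.{u} => (toLex x.sgn : Lex (Ordinal.{u} → SignType)))
    (fun _ _ h => ext_sgn fun β => congrFun (toLex.injective h) β)

theorem lt_iff {x y : No.{u}} :
    x < y ↔ ∃ β, (∀ γ, γ < β → x.sgn γ = y.sgn γ) ∧ x.sgn β < y.sgn β := Iff.rfl

/-- `IsInit x y`: the sign expansion of `x` is an initial segment (possibly all) of that of `y`. -/
def IsInit (x y : No.{u}) : Prop := ∀ β, x.sgn β ≠ 0 → y.sgn β = x.sgn β

/-- `Simpler x y`: the sign expansion of `x` is a proper initial segment of that of `y`. -/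
def Simpler (x y : No.{u}) : Prop := IsInit x y ∧ x ≠ y

/-- Cut the sign expansion at `α`. -/
noncomputable def trunc (x : No.{u}) (α : Ordinal.{u}) : No.{u} where
  sgn β := if β < α then x.sgn β else 0
  exists_len := ⟨min α x.len, fun β => by
    by_cases h : β < α
    · simp only [h, if_true, sgn_eq_zero_iff, min_le_iff, not_le.2 h, false_or]
    · simp only [h, if_false, true_iff]; exact (min_le_left _ _).trans (not_lt.1 h)⟩

theorem trunc_sgn (x : No.{u}) (α β : Ordinal.{u}) :
    (x.trunc α).sgn β = if β < α then x.sgn β else 0 := rfl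

theorem trunc_sgn_of_lt {x : No.{u}} {α β : Ordinal.{u}} (h : β < α) :
    (x.trunc α).sgn β = x.sgn β := by simp [trunc_sgn, h]

theorem trunc_sgn_of_le {x : No.{u}} {α β : Ordinal.{u}} (h : α ≤ β) :
    (x.trunc α).sgn β = 0 := by simp [trunc_sgn, not_lt.2 h]

theorem len_trunc (x : No.{u}) (α : Ordinal.{u}) : (x.trunc α).len = min α x.len := by
  apply len_eq_of
  intro β
  by_cases h : β < α
  · rw [trunc_sgn_of_lt h, sgn_eq_zero_iff, min_le_iff]
    constructor
    · intro h'; exact Or.inr h'
    · rintro (h' | h')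
      · exact absurd h (not_lt.2 h')
      · exact h'
  · rw [trunc_sgn_of_le (not_lt.1 h)]
    simp only [true_iff]; exact (min_le_left _ _).trans (not_lt.1 h)

theorem trunc_eq_self {x : No.{u}} {α : Ordinal.{u}} (h : x.len ≤ α) : x.trunc α = x := by
  apply ext_sgn
  intro β
  by_cases hβ : β < α
  · exact trunc_sgn_of_lt hβ
  · rw [trunc_sgn_of_le (not_lt.1 hβ), eq_comm, sgn_eq_zero_iff]
    exact h.trans (not_lt.1 hβ)

theorem isInit_refl (x : No.{u}) : IsInit x x := fun _ _ => rfl

theorem IsInit.trans {x y z : No.{u}} (h1 : IsInit x y) (h2 : IsInit y z) : IsInit x z := by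
  intro β hβ
  have h3 := h1 β hβ
  rw [h2 β (by rw [h3]; exact hβ), h3]

theorem trunc_isInit (x : No.{u}) (α : Ordinal.{u}) : IsInit (x.trunc α) x := by
  intro β hβ
  by_cases h : β < α
  · exact (trunc_sgn_of_lt h).symm
  · exact absurd (trunc_sgn_of_le (not_lt.1 h)) hβ

theorem IsInit.len_le {x y : No.{u}} (h : IsInit x y) : x.len ≤ y.len := by
  by_contra hlt
  rw [not_le] at hlt
  have h1 : x.sgn y.len ≠ 0 := (sgn_ne_zero_iff _ _).2 hlt
  have h2 := h _ h1
  rw [(sgn_eq_zero_iff y y.len).2 le_rfl] at h2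
  exact h1 h2.symm

theorem IsInit.eq_trunc {x y : No.{u}} (h : IsInit x y) : x = y.trunc x.len := by
  apply ext_sgn
  intro β
  by_cases hβ : β < x.len
  · rw [trunc_sgn_of_lt hβ, h β ((sgn_ne_zero_iff _ _).2 hβ)]
  · rw [trunc_sgn_of_le (not_lt.1 hβ), sgn_eq_zero_iff]; exact not_lt.1 hβ

theorem IsInit.eq_of_len {x y : No.{u}} (h : IsInit x y) (hl : y.len ≤ x.len) : x = y := by
  rw [h.eq_trunc, trunc_eq_self hl]

theorem IsInit.antisymm {x y : No.{u}} (h1 : IsInit x y) (h2 : IsInit y x) : x = y :=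
  h1.eq_of_len h2.len_le

theorem Simpler.len_lt {x y : No.{u}} (h : Simpler x y) : x.len < y.len := by
  rcases lt_or_ge x.len y.len with h' | h'
  · exact h'
  · exact absurd (h.1.eq_of_len h') h.2

theorem Simpler.trans_init {x y z : No.{u}} (h1 : Simpler x y) (h2 : IsInit y z) :
    Simpler x z := by
  refine ⟨h1.1.trans h2, ?_⟩
  rintro rfl
  exact absurd h1.len_lt (not_lt.2 h2.len_le)

theorem IsInit.trans_simpler {x y z : No.{u}} (h1 : IsInit x y) (h2 : Simpler y z) :
    Simpler x z := by
  refine ⟨h1.trans h2.1, ?_⟩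
  rintro rfl
  exact absurd h2.len_lt (not_lt.2 h1.len_le)

/-- Two initial segments of the same number are comparable. -/
theorem IsInit.of_len_le {a b x : No.{u}} (ha : IsInit a x) (hb : IsInit b x)
    (h : a.len ≤ b.len) : IsInit a b := by
  intro β hβ
  have h1 := ha β hβ
  have h2 : b.sgn β ≠ 0 := by
    rw [sgn_ne_zero_iff] at hβ ⊢
    exact hβ.trans_le h
  rw [← h1, hb β h2]

theorem IsInit.total {a b x : No.{u}} (ha : IsInit a x) (hb : IsInit b x) :
    IsInit a b ∨ Simpler b a := by
  rcases le_or_gt a.len b.len with h | h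
  · exact Or.inl (ha.of_len_le hb h)
  · refine Or.inr ⟨hb.of_len_le ha h.le, ?_⟩
    rintro rfl
    exact lt_irrefl _ h

/-- The sign of `x` just after a proper initial segment `a` tells on which side of `a` it lies. -/
theorem Simpler.lt_iff_sgn {a x : No.{u}} (h : Simpler a x) : a < x ↔ x.sgn a.len = 1 := by
  have h0 : x.sgn a.len ≠ 0 := (sgn_ne_zero_iff _ _).2 h.len_lt
  have h1 : a.sgn a.len = 0 := (sgn_eq_zero_iff _ _).2 le_rfl
  have agree : ∀ γ, γ < a.len → a.sgn γ = x.sgn γ := fun γ hγ =>
    (h.1 γ ((sgn_ne_zero_iff _ _).2 hγ)).symm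
  constructor
  · intro hax
    obtain ⟨β, hβ, hlt⟩ := lt_iff.1 hax
    rcases lt_trichotomy β a.len with hb | hb | hb
    · rw [agree β hb] at hlt; exact absurd hlt (lt_irrefl _)
    · subst hb
      rw [h1] at hlt
      revert hlt
      cases x.sgn a.len <;> decide
    · exact absurd ((hβ _ hb).symm.trans h1) h0
  · intro hs
    refine lt_iff.2 ⟨a.len, agree, ?_⟩
    rw [h1, hs]; decide

theorem Simpler.gt_iff_sgn {a x : No.{u}} (h : Simpler a x) : x < a ↔ x.sgn a.len = -1 := by
  have h0 : x.sgn a.len ≠ 0 := (sgn_ne_zero_iff _ _).2 h.len_lt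
  have h2 := h.lt_iff_sgn
  constructor
  · intro hlt
    have h3 : ¬ x.sgn a.len = 1 := fun h4 => absurd (h2.2 h4) (not_lt.2 hlt.le)
    revert h0 h3
    cases x.sgn a.len <;> decide
  · intro hs
    have h3 : ¬ a < x := by rw [h2, hs]; decide
    rcases lt_trichotomy x a with h4 | h4 | h4
    · exact h4
    · exact absurd h4.symm h.2
    · exact absurd h4 h3

/-- Passing to a longer number does not change the side of a proper initial segment. -/
theorem Simpler.lt_iff_of_init {w a x : No.{u}} (h : Simpler w a) (hx : IsInit a x) :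
    w < a ↔ w < x := by
  rw [h.lt_iff_sgn, (h.trans_init hx).lt_iff_sgn,
    hx w.len ((sgn_ne_zero_iff _ _).2 h.len_lt)]

theorem Simpler.gt_iff_of_init {w a x : No.{u}} (h : Simpler w a) (hx : IsInit a x) :
    a < w ↔ x < w := by
  rw [h.gt_iff_sgn, (h.trans_init hx).gt_iff_sgn,
    hx w.len ((sgn_ne_zero_iff _ _).2 h.len_lt)]

theorem trunc_le_of_nonneg {x : No.{u}} {β : Ordinal.{u}} (h : x.sgn β ≠ -1) :
    x.trunc β ≤ x := by
  by_cases hb : x.len ≤ β
  · rw [trunc_eq_self hb]
  · have hs : Simpler (x.trunc β) x := by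
      refine ⟨trunc_isInit x β, ?_⟩
      intro heq
      have := len_trunc x β
      rw [heq, min_eq_left (not_le.1 hb).le] at this
      exact hb this.le
    have hl : (x.trunc β).len = β := by rw [len_trunc, min_eq_left (not_le.1 hb).le]
    refine (hs.lt_iff_sgn.2 ?_).le
    rw [hl]
    have h0 : x.sgn β ≠ 0 := (sgn_ne_zero_iff _ _).2 (not_le.1 hb)
    revert h0 h
    cases x.sgn β <;> decide

theorem le_trunc_of_nonpos {x : No.{u}} {β : Ordinal.{u}} (h : x.sgn β ≠ 1) :
    x ≤ x.trunc β := by
  by_cases hb : x.len ≤ β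
  · rw [trunc_eq_self hb]
  · have hs : Simpler (x.trunc β) x := by
      refine ⟨trunc_isInit x β, ?_⟩
      intro heq
      have := len_trunc x β
      rw [heq, min_eq_left (not_le.1 hb).le] at this
      exact hb this.le
    have hl : (x.trunc β).len = β := by rw [len_trunc, min_eq_left (not_le.1 hb).le]
    refine (hs.gt_iff_sgn.2 ?_).le
    rw [hl]
    have h0 : x.sgn β ≠ 0 := (sgn_ne_zero_iff _ _).2 (not_le.1 hb)
    revert h0 h
    cases x.sgn β <;> decide

/-- Between two numbers lies (weakly) a common initial segment. -/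
theorem exists_mid {x y : No.{u}} (h : x < y) :
    ∃ v, IsInit v x ∧ IsInit v y ∧ x ≤ v ∧ v ≤ y := by
  obtain ⟨β, hβ, hlt⟩ := lt_iff.1 h
  have heq : x.trunc β = y.trunc β := by
    apply ext_sgn
    intro γ
    by_cases hγ : γ < β
    · rw [trunc_sgn_of_lt hγ, trunc_sgn_of_lt hγ, hβ γ hγ]
    · rw [trunc_sgn_of_le (not_lt.1 hγ), trunc_sgn_of_le (not_lt.1 hγ)]
  refine ⟨x.trunc β, trunc_isInit _ _, ?_, ?_, ?_⟩
  · rw [heq]; exact trunc_isInit _ _
  · apply le_trunc_of_nonpos
    intro h1
    rw [h1] at hlt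
    revert hlt
    cases y.sgn β <;> decide
  · rw [heq]
    apply trunc_le_of_nonneg
    intro h1
    rw [h1] at hlt
    revert hlt
    cases x.sgn β <;> decide

/-- `z` is the simplest element of `P`. -/
def IsSimplest (P : Set No.{u}) (z : No.{u}) : Prop := z ∈ P ∧ ∀ w ∈ P, IsInit z w

theorem IsSimplest.unique {P : Set No.{u}} {z w : No.{u}} (hz : IsSimplest P z)
    (hw : IsSimplest P w) : z = w := (hz.2 w hw.1).antisymm (hw.2 z hz.1)

/-- A nonempty relatively convex subset of an initial class has a simplest element. -/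
theorem exists_isSimplest_rel (G : Set No.{u}) (hG : ∀ y ∈ G, ∀ x, IsInit x y → x ∈ G)
    (I : Set No.{u}) (hI : I ⊆ G) (hne : I.Nonempty)
    (hconv : ∀ a ∈ I, ∀ b ∈ I, ∀ c ∈ G, a < c → c < b → c ∈ I) : ∃ z, IsSimplest I z := by
  obtain ⟨z, hz, hmin⟩ := (InvImage.wf len (wellFounded_lt (α := Ordinal.{u}))).has_min I hne
  have hmin' : ∀ w ∈ I, ¬ w.len < z.len := fun w hw => hmin w hw
  refine ⟨z, hz, fun w hw => ?_⟩
  rcases lt_trichotomy z w with h | h | h
  · obtain ⟨v, hvz, hvw, h1, h2⟩ := exists_mid h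
    rcases eq_or_lt_of_le h1 with h3 | h3
    · rw [h3]; exact hvw
    · exfalso
      have hs : Simpler v z := ⟨hvz, h3.ne'⟩
      rcases eq_or_lt_of_le h2 with h4 | h4
      · rw [h4] at hs
        exact hmin' w hw hs.len_lt
      · exact hmin' v (hconv z hz w hw v (hG z (hI hz) v hvz) h3 h4) hs.len_lt
  · rw [h]; exact isInit_refl _
  · obtain ⟨v, hvw, hvz, h1, h2⟩ := exists_mid h
    rcases eq_or_lt_of_le h2 with h3 | h3
    · rw [← h3]; exact hvw
    · exfalso
      have hs : Simpler v z := ⟨hvz, h3.ne⟩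
      rcases eq_or_lt_of_le h1 with h4 | h4
      · rw [← h4] at hs
        exact hmin' w hw hs.len_lt
      · exact hmin' v (hconv w hw z hz v (hG z (hI hz) v hvz) h4 h3) hs.len_lt

theorem exists_isSimplest {I : Set No.{u}} (hne : I.Nonempty)
    (hconv : ∀ a ∈ I, ∀ b ∈ I, ∀ c, a < c → c < b → c ∈ I) : ∃ z, IsSimplest I z :=
  exists_isSimplest_rel Set.univ (fun _ _ _ _ => trivial) I (fun _ _ => trivial) hne
    (fun a ha b hb c _ h1 h2 => hconv a ha b hb c h1 h2)

/-- The simplest element of `P` (with value junk if there is none). -/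
noncomputable def simplest (P : Set No.{u}) : No.{u} :=
  open Classical in
  if h : ∃ z, IsSimplest P z then h.choose else ⟨fun _ => 0, 0, fun β => by simp⟩

theorem simplest_spec {P : Set No.{u}} (h : ∃ z, IsSimplest P z) : IsSimplest P (simplest P) := by
  rw [simplest, dif_pos h]; exact h.choose_spec

/-- The recursion which fills a cut. -/
noncomputable def cutFun (L : Set No.{u}) (β : Ordinal.{u}) : SignType :=
  open Classical in
  if ∃ l ∈ L, (toLex (fun γ => if _ : γ < β then cutFun L γ else 0) :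
    Lex (Ordinal.{u} → SignType)) ≤ toLex l.sgn then 1 else -1
termination_by β

theorem cutFun_ne_zero (L : Set No.{u}) (β : Ordinal.{u}) : cutFun L β ≠ 0 := by
  rw [cutFun]; split_ifs <;> decide

/-- the approximation of length `α` -/
noncomputable def cutNo (L : Set No.{u}) (α : Ordinal.{u}) : No.{u} where
  sgn γ := if γ < α then cutFun L γ else 0
  exists_len := ⟨α, fun β => by
    by_cases h : β < α
    · simp [h, cutFun_ne_zero]
    · simp [h, not_lt.1 h]⟩

theorem len_cutNo (L : Set No.{u}) (α : Ordinal.{u}) : (cutNo L α).len = α := by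
  apply len_eq_of
  intro β
  by_cases h : β < α
  · simp [cutNo, h, cutFun_ne_zero]
  · simp [cutNo, h, not_lt.1 h]

theorem cutNo_sgn (L : Set No.{u}) {α β : Ordinal.{u}} (h : β < α) :
    (cutNo L α).sgn β = 1 ↔ ∃ l ∈ L, (cutNo L α).trunc β ≤ l := by
  have key : (fun γ => if _ : γ < β then cutFun L γ else 0) = ((cutNo L α).trunc β).sgn := by
    funext γ
    by_cases hγ : γ < β
    · simp [trunc_sgn, cutNo, hγ, hγ.trans h]
    · simp [trunc_sgn, hγ]
  have h1 : (cutNo L α).sgn β = cutFun L β := by simp [cutNo, h]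
  rw [h1, cutFun, key]
  constructor
  · intro h2
    split_ifs at h2 with h3
    · exact h3
  · intro h2
    rw [if_pos]
    exact h2

theorem cutNo_sgn' (L : Set No.{u}) {α β : Ordinal.{u}} (h : β < α) :
    (cutNo L α).sgn β = 1 ∨ (cutNo L α).sgn β = -1 := by
  have h1 : (cutNo L α).sgn β ≠ 0 := by
    rw [sgn_ne_zero_iff, len_cutNo]; exact h
  revert h1
  cases (cutNo L α).sgn β <;> decide

/-- **Cut filling.** If `L` and `R` are small sets with `L < R`, some surreal lies between. -/
theorem exists_between (L R : Set No.{u}) [Small.{u} L] [Small.{u} R]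
    (hLR : ∀ l ∈ L, ∀ r ∈ R, l < r) : ∃ z, (∀ l ∈ L, l < z) ∧ ∀ r ∈ R, z < r := by
  obtain ⟨α, hα⟩ : ∃ α : Ordinal.{u}, ∀ x ∈ L ∪ R, x.len < α := by
    have : BddAbove (len '' (L ∪ R)) := bddAbove_of_small
    obtain ⟨α, hα⟩ := this
    exact ⟨Order.succ α, fun x hx => Order.lt_succ_of_le (hα (Set.mem_image_of_mem _ hx))⟩
  refine ⟨cutNo L α, fun l hl => ?_, fun r hr => ?_⟩
  · have hlen := hα l (Or.inl hl)
    rcases lt_trichotomy l (cutNo L α) with h | h | h
    · exact h
    · rw [h, len_cutNo] at hlen; exact absurd hlen (lt_irrefl _)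
    · exfalso
      obtain ⟨β, hβ, hlt⟩ := lt_iff.1 h
      have hβα : β < α := by
        by_contra hc
        rw [not_lt] at hc
        rw [(sgn_eq_zero_iff l β).2 (hlen.le.trans hc),
          (sgn_eq_zero_iff (cutNo L α) β).2 (by rw [len_cutNo]; exact hc)] at hlt
        exact lt_irrefl _ hlt
      have htr : (cutNo L α).trunc β = l.trunc β := by
        apply ext_sgn
        intro γ
        by_cases hγ : γ < β
        · rw [trunc_sgn_of_lt hγ, trunc_sgn_of_lt hγ, hβ γ hγ]
        · rw [trunc_sgn_of_le (not_lt.1 hγ), trunc_sgn_of_le (not_lt.1 hγ)]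
      have h1 : (cutNo L α).sgn β = 1 := by
        rw [cutNo_sgn L hβα]
        refine ⟨l, hl, ?_⟩
        rw [htr]
        apply trunc_le_of_nonneg
        intro h2
        rw [h2] at hlt
        revert hlt
        cases (cutNo L α).sgn β <;> decide
      rw [h1] at hlt
      revert hlt
      cases l.sgn β <;> decide
  · have hlen := hα r (Or.inr hr)
    rcases lt_trichotomy (cutNo L α) r with h | h | h
    · exact h
    · rw [← h, len_cutNo] at hlen; exact absurd hlen (lt_irrefl _)
    · exfalso
      obtain ⟨β, hβ, hlt⟩ := lt_iff.1 h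
      have hβα : β < α := by
        by_contra hc
        rw [not_lt] at hc
        rw [(sgn_eq_zero_iff r β).2 (hlen.le.trans hc),
          (sgn_eq_zero_iff (cutNo L α) β).2 (by rw [len_cutNo]; exact hc)] at hlt
        exact lt_irrefl _ hlt
      have htr : (cutNo L α).trunc β = r.trunc β := by
        apply ext_sgn
        intro γ
        by_cases hγ : γ < β
        · rw [trunc_sgn_of_lt hγ, trunc_sgn_of_lt hγ, hβ γ hγ]
        · rw [trunc_sgn_of_le (not_lt.1 hγ), trunc_sgn_of_le (not_lt.1 hγ)]
      have h1 : (cutNo L α).sgn β = 1 := by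
        rcases cutNo_sgn' L hβα with h2 | h2
        · exact h2
        · exfalso
          rw [h2] at hlt
          revert hlt
          cases r.sgn β <;> decide
      obtain ⟨l, hl, hle⟩ := (cutNo_sgn L hβα).1 h1
      rw [htr] at hle
      have h3 : r ≤ r.trunc β := by
        apply le_trunc_of_nonpos
        intro h2
        rw [h2] at hlt
        revert hlt
        cases (cutNo L α).sgn β <;> decide
      exact absurd (hLR l hl r hr) (not_lt.2 (h3.trans hle))

instance small_setOf_simpler (x : No.{u}) : Small.{u} {a : No.{u} | Simpler a x} := by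
  have h : {a : No.{u} | Simpler a x} ⊆ (fun α => x.trunc α) '' Set.Iio x.len := by
    intro a ha
    exact ⟨a.len, ha.len_lt, ha.1.eq_trunc.symm⟩
  exact small_subset h

end No

end Pool.Agent.Lib.MP_c618e1_lc
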