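import Pool.Agent.Lib.MP_c618e1_lc.Stretch

/-!
Discrete initial subgroups: the simplest elements of the cosets of the least convex subgroup form a
subgroup, which can be compressed to an initial subgroup.
-/

universe u

namespace Pool.Agent.Lib.MP_c618e1_lc

open Ordinal

namespace No

/-- A class of surreal numbers is initial if it contains every number simpler than one of its
members. -/
def IsInitial (A : Set No.{u}) : Prop := ∀ y ∈ A, ∀ x, Simpler x y → x ∈ A

theorem IsInitial.mem {A : Set No.{u}} (hA : IsInitial A) {x y : No.{u}} (hy : y ∈ A)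
    (h : IsInit x y) : x ∈ A := by
  by_cases hxy : x = y
  · rw [hxy]; exact hy
  · exact hA y hy x ⟨h, hxy⟩

section

variable {G : AddSubgroup No.{u}} {e : No.{u}}

theorem mul_aux (he : e ∈ G) (hmin : ∀ x ∈ G, 0 < x → e ≤ x) (n : ℕ) :
    ∀ d ∈ G, 0 ≤ d → d < n • e → ∃ k : ℤ, d = k • e := by
  induction n with
  | zero =>
    intro d _ h0 h1
    rw [zero_nsmul] at h1
    exact absurd h1 (not_lt.2 h0)
  | succ n ih =>
    intro d hd h0 h1
    rcases eq_or_lt_of_le h0 with h2 | h2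
    · exact ⟨0, by rw [zero_zsmul, h2]⟩
    · obtain ⟨k, hk⟩ := ih (d - e) (G.sub_mem hd he) (sub_nonneg.2 (hmin d hd h2)) (by
        rw [succ_nsmul] at h1
        rwa [sub_lt_iff_lt_add])
      exact ⟨k + 1, by rw [add_zsmul, one_zsmul, ← hk, sub_add_cancel]⟩

/-- Cosets of `ℤ e` are convex in `G`. -/
theorem coset_conv (he : e ∈ G) (he0 : 0 < e) (hmin : ∀ x ∈ G, 0 < x → e ≤ x) {x c : No.{u}}
    (hx : x ∈ G) (hc : c ∈ G) {i j : ℤ} (h1 : x + i • e ≤ c) (h2 : c ≤ x + j • e) :
    ∃ k : ℤ, c = x + k • e := by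
  have hd : c - (x + i • e) ∈ G := G.sub_mem hc (G.add_mem hx (G.zsmul_mem he i))
  have hlt : c - (x + i • e) < ((j - i).toNat + 1) • e := by
    rw [sub_lt_iff_lt_add]
    refine lt_of_le_of_lt h2 ?_
    have h3 : j • e ≤ (((j - i).toNat : ℤ) + i) • e :=
      zsmul_le_zsmul_left he0.le (by omega)
    have h4 : (((j - i).toNat : ℤ) + i) • e < (((j - i).toNat : ℤ) + 1 + i) • e := by
      have : (((j - i).toNat : ℤ) + 1 + i) • e = (((j - i).toNat : ℤ) + i) • e + e := by
        rw [← add_one_zsmul]; congr 1; ring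
      rw [this]
      exact lt_add_of_pos_right _ he0
    have h5 : ((j - i).toNat + 1) • e + (x + i • e) =
        x + (((j - i).toNat : ℤ) + 1 + i) • e := by
      rw [add_zsmul, ← natCast_zsmul]
      push_cast
      abel
    rw [h5]
    exact add_lt_add_left' (h3.trans_lt h4) x
  obtain ⟨k, hk⟩ := mul_aux he hmin _ _ hd (sub_nonneg.2 h1) hlt
  refine ⟨k + i, ?_⟩
  rw [add_zsmul, ← hk]
  abel

/-- `x` is the simplest element of its coset `x + ℤ e`. -/
def Rep (G : AddSubgroup No.{u}) (e x : No.{u}) : Prop := x ∈ G ∧ ∀ k : ℤ, IsInit x (x + k • e)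

theorem Rep.eq {x y : No.{u}} (hx : Rep G e x) (hy : Rep G e y) {k : ℤ} (h : y = x + k • e) :
    x = y := by
  have h1 := hx.2 k
  rw [← h] at h1
  have h2 := hy.2 (-k)
  rw [h, add_assoc, ← add_zsmul, add_neg_cancel, zero_zsmul, add_zero, ← h] at h2
  exact h1.antisymm h2

theorem exists_rep (hG : IsInitial (G : Set No.{u})) (he : e ∈ G) (he0 : 0 < e)
    (hmin : ∀ x ∈ G, 0 < x → e ≤ x) {x : No.{u}} (hx : x ∈ G) :
    ∃ k : ℤ, Rep G e (x + k • e) ∧ IsInit (x + k • e) x := by
  obtain ⟨z, hz⟩ := exists_isSimplest_rel (G : Set No.{u}) (fun y hy x h => hG.mem hy h)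
    {z | ∃ k : ℤ, z = x + k • e} (by
      rintro _ ⟨k, rfl⟩
      exact G.add_mem hx (G.zsmul_mem he k)) ⟨x, 0, by rw [zero_zsmul, add_zero]⟩ (by
      rintro _ ⟨i, rfl⟩ _ ⟨j, rfl⟩ c hc h1 h2
      exact coset_conv he he0 hmin hx hc h1.le h2.le)
  obtain ⟨k, rfl⟩ := hz.1
  refine ⟨k, ⟨G.add_mem hx (G.zsmul_mem he k), fun j => hz.2 _ ⟨k + j, ?_⟩⟩,
    hz.2 _ ⟨0, by rw [zero_zsmul, add_zero]⟩⟩
  rw [add_zsmul, add_assoc]

theorem Rep.zero : Rep G e 0 := ⟨G.zero_mem, fun _ => isInit_zero _⟩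

theorem Rep.neg {x : No.{u}} (hx : Rep G e x) : Rep G e (-x) := by
  refine ⟨G.neg_mem hx.1, fun k => ?_⟩
  have h := (hx.2 (-k)).neg
  have h2 : -(x + -k • e) = -x + k • e := by rw [neg_add, neg_zsmul, neg_neg]
  rwa [h2] at h

/-- a simplest element lies on the right side of a whole coset -/
theorem Rep.not_coset {x a : No.{u}} (hx : Rep G e x) (ha : Simpler a x) (k : ℤ) :
    a ≠ x + k • e := by
  intro h
  have h1 := hx.2 k
  rw [← h] at h1
  exact absurd ha.len_lt (not_lt.2 h1.len_le)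

theorem Rep.add (hG : IsInitial (G : Set No.{u})) (he : e ∈ G) (he0 : 0 < e)
    (hmin : ∀ x ∈ G, 0 < x → e ≤ x) {x y : No.{u}} (hx : Rep G e x) (hy : Rep G e y) :
    Rep G e (x + y) := by
  obtain ⟨k, hk, hinit⟩ := exists_rep hG he he0 hmin (G.add_mem hx.1 hy.1)
  by_cases heq : x + y + k • e = x + y
  · rwa [heq] at hk
  · exfalso
    have hs : Simpler (x + y + k • e) (x + y) := ⟨hinit, heq⟩
    rcases lt_trichotomy (x + y + k • e) (x + y) with h | h | h
    · rcases exists_left_option hs h with ⟨a, ha, hax, hle⟩ | ⟨b, hb, hby, hle⟩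
      · have haG : a ∈ G := hG _ hx.1 a ha
        have h1 : x + k • e ≤ a := by
          have : x + y + k • e = (x + k • e) + y := by abel
          rw [this] at hle
          exact le_of_add_le_add_right hle
        obtain ⟨j, hj⟩ := coset_conv he he0 hmin hx.1 haG h1
          (j := 0) (by rw [zero_zsmul, add_zero]; exact hax.le)
        exact hx.not_coset ha j hj
      · have hbG : b ∈ G := hG _ hy.1 b hb
        have h1 : y + k • e ≤ b := by
          have : x + y + k • e = x + (y + k • e) := by abel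
          rw [this] at hle
          exact le_of_add_le_add_left hle
        obtain ⟨j, hj⟩ := coset_conv he he0 hmin hy.1 hbG h1
          (j := 0) (by rw [zero_zsmul, add_zero]; exact hby.le)
        exact hy.not_coset hb j hj
    · exact heq h
    · rcases exists_right_option hs h with ⟨a, ha, hax, hle⟩ | ⟨b, hb, hby, hle⟩
      · have haG : a ∈ G := hG _ hx.1 a ha
        have h1 : a ≤ x + k • e := by
          have : x + y + k • e = (x + k • e) + y := by abel
          rw [this] at hle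
          exact le_of_add_le_add_right hle
        obtain ⟨j, hj⟩ := coset_conv he he0 hmin hx.1 haG (i := 0)
          (by rw [zero_zsmul, add_zero]; exact hax.le) h1
        exact hx.not_coset ha j hj
      · have hbG : b ∈ G := hG _ hy.1 b hb
        have h1 : b ≤ y + k • e := by
          have : x + y + k • e = x + (y + k • e) := by abel
          rw [this] at hle
          exact le_of_add_le_add_left hle
        obtain ⟨j, hj⟩ := coset_conv he he0 hmin hy.1 hbG (i := 0)
          (by rw [zero_zsmul, add_zero]; exact hby.le) h1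
        exact hy.not_coset hb j hj

/-- the subgroup of the simplest elements of the cosets of `ℤ e` -/
def repGroup (hG : IsInitial (G : Set No.{u})) (he : e ∈ G) (he0 : 0 < e)
    (hmin : ∀ x ∈ G, 0 < x → e ≤ x) : AddSubgroup No.{u} where
  carrier := {x | Rep G e x}
  add_mem' hx hy := Rep.add hG he he0 hmin hx hy
  zero_mem' := Rep.zero
  neg_mem' hx := Rep.neg hx

theorem Rep.lt_of_lt (he : e ∈ G) (he0 : 0 < e) (hmin : ∀ x ∈ G, 0 < x → e ≤ x)
    {x y : No.{u}} (hx : Rep G e x) (hy : Rep G e y) (h : x < y) (k : ℤ) : x + k • e < y := by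
  by_contra hc
  obtain ⟨j, hj⟩ := coset_conv he he0 hmin hx.1 hy.1 (i := 0)
    (by rw [zero_zsmul, add_zero]; exact h.le) (not_lt.1 hc)
  exact h.ne (hx.eq hy hj)

/-- Between two simplest elements lies a common initial segment which is simplest in its coset. -/
theorem Rep.exists_mid (hG : IsInitial (G : Set No.{u})) (he : e ∈ G) (he0 : 0 < e)
    (hmin : ∀ x ∈ G, 0 < x → e ≤ x) {x y : No.{u}} (hx : Rep G e x) (hy : Rep G e y)
    (h : x < y) : ∃ w, Rep G e w ∧ IsInit w x ∧ IsInit w y ∧ x ≤ w ∧ w ≤ y := by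
  obtain ⟨v, hvx, hvy, h1, h2⟩ := No.exists_mid h
  have hvG : v ∈ G := hG.mem hx.1 hvx
  obtain ⟨k, hk, hinit⟩ := exists_rep hG he he0 hmin hvG
  refine ⟨v + k • e, hk, hinit.trans hvx, hinit.trans hvy, ?_, ?_⟩
  · by_contra hc
    rw [not_le] at hc
    obtain ⟨j, hj⟩ := coset_conv he he0 hmin hvG hx.1 hc.le (j := 0)
      (by rw [zero_zsmul, add_zero]; exact h1)
    have h3 : x = (v + k • e) + (j - k) • e := by rw [hj, sub_zsmul]; abel
    exact hc.ne (hk.eq hx h3)
  · by_contra hc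
    rw [not_le] at hc
    obtain ⟨j, hj⟩ := coset_conv he he0 hmin hvG hy.1 (i := 0)
      (by rw [zero_zsmul, add_zero]; exact h2) hc.le
    have h3 : y = (v + k • e) + (j - k) • e := by rw [hj, sub_zsmul]; abel
    exact hc.ne' (hk.eq hy h3)

end

/-- Compression: delete from the sign expansion of `x` the signs following an initial segment which
does not belong to `S`. -/
noncomputable def psi (S : Set No.{u}) (x : No.{u}) : No.{u} :=
  simplest {z | ∀ a, Simpler a x → a ∈ S → (a < x → psi S a < z) ∧ (x < a → z < psi S a)}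
termination_by x.len
decreasing_by
  all_goals exact Simpler.len_lt ‹_›

/-- the cut defining `psi` -/
def PsiSet (S : Set No.{u}) (x : No.{u}) : Set No.{u} :=
  {z | ∀ a, Simpler a x → a ∈ S → (a < x → psi S a < z) ∧ (x < a → z < psi S a)}

theorem psi_eq (S : Set No.{u}) (x : No.{u}) : psi S x = simplest (PsiSet S x) := by
  rw [psi]; rfl

/-- between two elements of `S` there is an initial segment of both in `S` -/
def HasMid (S : Set No.{u}) : Prop :=
  ∀ x ∈ S, ∀ y ∈ S, x < y → ∃ w ∈ S, IsInit w x ∧ IsInit w y ∧ x ≤ w ∧ w ≤ y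

theorem psi_mono_aux {S : Set No.{u}} (hS : HasMid S) {x y : No.{u}} (hx : x ∈ S) (hy : y ∈ S)
    (h : x < y) (h1 : psi S x ∈ PsiSet S x) (h2 : psi S y ∈ PsiSet S y) : psi S x < psi S y := by
  obtain ⟨w, hw, hwx, hwy, h3, h4⟩ := hS x hx y hy h
  rcases eq_or_lt_of_le h3 with h5 | h5
  · subst h5
    exact (h2 x ⟨hwy, h.ne⟩ hx).1 h
  · have h6 := (h1 w ⟨hwx, h5.ne'⟩ hw).2 h5
    rcases eq_or_lt_of_le h4 with h7 | h7
    · rw [← h7]; exact h6
    · exact h6.trans ((h2 w ⟨hwy, h7.ne⟩ hw).1 h7)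

theorem psi_spec {S : Set No.{u}} (hS : HasMid S) (x : No.{u}) :
    IsSimplest (PsiSet S x) (psi S x) := by
  have ih : ∀ a, Simpler a x → psi S a ∈ PsiSet S a := fun a ha => (psi_spec hS a).1
  have hne : (PsiSet S x).Nonempty := by
    let L : Set No.{u} := (fun a => psi S a) '' {a | Simpler a x ∧ a ∈ S ∧ a < x}
    let R : Set No.{u} := (fun a => psi S a) '' {a | Simpler a x ∧ a ∈ S ∧ x < a}
    have t1 : {a | Simpler a x ∧ a ∈ S ∧ a < x} ⊆ {a : No.{u} | Simpler a x} := fun a ha => ha.1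
    have t2 : {a | Simpler a x ∧ a ∈ S ∧ x < a} ⊆ {a : No.{u} | Simpler a x} := fun a ha => ha.1
    have s1 := small_subset t1
    have s2 := small_subset t2
    have : Small.{u} L := small_image _ _
    have : Small.{u} R := small_image _ _
    obtain ⟨z, hz1, hz2⟩ := exists_between L R (by
      rintro l ⟨a, ⟨ha, haS, hax⟩, rfl⟩ r ⟨b, ⟨hb, hbS, hbx⟩, rfl⟩
      exact psi_mono_aux hS haS hbS (hax.trans hbx) (ih a ha) (ih b hb))
    exact ⟨z, fun a ha haS => ⟨fun h => hz1 _ ⟨a, ⟨ha, haS, h⟩, rfl⟩,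
      fun h => hz2 _ ⟨a, ⟨ha, haS, h⟩, rfl⟩⟩⟩
  rw [psi_eq]
  exact simplest_spec (exists_isSimplest hne (fun a ha b hb c hac hcb d hd hdS =>
    ⟨fun h => ((ha d hd hdS).1 h).trans hac, fun h => hcb.trans ((hb d hd hdS).2 h)⟩))
termination_by x.len
decreasing_by exact Simpler.len_lt ‹Simpler _ x›

theorem psi_lt {S : Set No.{u}} (hS : HasMid S) {x y : No.{u}} (hx : x ∈ S) (hy : y ∈ S)
    (h : x < y) : psi S x < psi S y :=
  psi_mono_aux hS hx hy h (psi_spec hS x).1 (psi_spec hS y).1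

theorem psi_lt_iff {S : Set No.{u}} (hS : HasMid S) {x y : No.{u}} (hx : x ∈ S) (hy : y ∈ S) :
    psi S x < psi S y ↔ x < y := by
  refine ⟨fun h => ?_, psi_lt hS hx hy⟩
  rcases lt_trichotomy x y with h1 | h1 | h1
  · exact h1
  · rw [h1] at h; exact absurd h (lt_irrefl _)
  · exact absurd (psi_lt hS hy hx h1) (not_lt.2 h.le)

theorem psi_le {S : Set No.{u}} (hS : HasMid S) {x y : No.{u}} (hx : x ∈ S) (hy : y ∈ S)
    (h : x ≤ y) : psi S x ≤ psi S y := by
  rcases eq_or_lt_of_le h with h | h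
  · rw [h]
  · exact (psi_lt hS hx hy h).le

theorem psi_inj {S : Set No.{u}} (hS : HasMid S) {x y : No.{u}} (hx : x ∈ S) (hy : y ∈ S)
    (h : psi S x = psi S y) : x = y := by
  rcases lt_trichotomy x y with h1 | h1 | h1
  · exact absurd h (psi_lt hS hx hy h1).ne
  · exact h1
  · exact absurd h (psi_lt hS hy hx h1).ne'

theorem simpler_psi {S : Set No.{u}} (hS : HasMid S) {a x : No.{u}} (ha : a ∈ S) (hx : x ∈ S)
    (h : Simpler a x) : Simpler (psi S a) (psi S x) := by
  refine ⟨?_, fun heq => h.2 (psi_inj hS ha hx heq)⟩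
  apply (psi_spec hS a).2
  intro b hb hbS
  have h1 := (psi_spec hS x).1 b (hb.trans_init h.1) hbS
  rw [hb.lt_iff_of_init h.1, hb.gt_iff_of_init h.1]
  exact h1

theorem exists_of_simpler_psi {S : Set No.{u}} (hS : HasMid S) {x z : No.{u}} (hx : x ∈ S)
    (h : Simpler z (psi S x)) : ∃ a ∈ S, Simpler a x ∧ z = psi S a := by
  have ih : ∀ a, Simpler a x → a ∈ S → Simpler z (psi S a) →
      ∃ b ∈ S, Simpler b a ∧ z = psi S b := fun a ha haS hz => exists_of_simpler_psi hS haS hz
  have hnot : z ∉ PsiSet S x := fun hmem => h.2 (h.1.antisymm ((psi_spec hS x).2 z hmem))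
  simp only [PsiSet, Set.mem_ofPred_eq, not_forall] at hnot
  obtain ⟨a, ha, haS, hnot⟩ := hnot
  by_cases hza : z = psi S a
  · exact ⟨a, haS, ha, hza⟩
  have hsa := simpler_psi hS haS hx ha
  have hrec : IsInit z (psi S a) → ∃ a ∈ S, Simpler a x ∧ z = psi S a := by
    intro h1
    obtain ⟨b, hbS, hb, hzb⟩ := ih a ha haS ⟨h1, hza⟩
    exact ⟨b, hbS, hb.trans_init ha.1, hzb⟩
  rcases h.1.total hsa.1 with h1 | h1
  · exact hrec h1
  · exfalso
    apply hnot
    have h2 := h1.lt_iff_of_init h.1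
    have h3 := h1.gt_iff_of_init h.1
    rw [h2, h3]
    exact ⟨fun h => psi_lt hS haS hx h, fun h => psi_lt hS hx haS h⟩
termination_by x.len
decreasing_by exact Simpler.len_lt ‹Simpler _ x›

section

variable {G : AddSubgroup No.{u}} {e : No.{u}}

theorem hasMid_rep (hG : IsInitial (G : Set No.{u})) (he : e ∈ G) (he0 : 0 < e)
    (hmin : ∀ x ∈ G, 0 < x → e ≤ x) : HasMid {x | Rep G e x} :=
  fun _ hx _ hy h => Rep.exists_mid hG he he0 hmin hx hy h

/-- replacing a left option by the simplest element of its coset -/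
theorem left_fix (hG : IsInitial (G : Set No.{u})) (he : e ∈ G) (he0 : 0 < e)
    (hmin : ∀ x ∈ G, 0 < x → e ≤ x) {x y u a : No.{u}} (hx : Rep G e x) (hy : Rep G e y)
    (hu : Rep G e u) (ha : Simpler a x) (hax : a < x) (hle : u ≤ a + y) :
    ∃ a', Rep G e a' ∧ Simpler a' x ∧ a' < x ∧ u ≤ a' + y := by
  have haG : a ∈ G := hG _ hx.1 a ha
  obtain ⟨k, hk, hinit⟩ := exists_rep hG he he0 hmin haG
  have hs := hinit.trans_simpler ha
  refine ⟨a + k • e, hk, hs, ?_, ?_⟩
  · by_contra hc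
    rw [not_lt] at hc
    obtain ⟨j, hj⟩ := coset_conv he he0 hmin haG hx.1 (i := 0)
      (by rw [zero_zsmul, add_zero]; exact hax.le) hc
    have h3 : x = (a + k • e) + (j - k) • e := by rw [hj, sub_zsmul]; abel
    exact hs.2 (hk.eq hx h3)
  · by_contra hc
    rw [not_le] at hc
    have hsum := Rep.add hG he he0 hmin hk hy
    have h1 : u ≤ (a + k • e + y) + (-k) • e := by
      refine hle.trans (le_of_eq ?_)
      rw [neg_zsmul]; abel
    exact absurd (Rep.lt_of_lt he he0 hmin hsum hu hc (-k)) (not_lt.2 h1)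

theorem right_fix (hG : IsInitial (G : Set No.{u})) (he : e ∈ G) (he0 : 0 < e)
    (hmin : ∀ x ∈ G, 0 < x → e ≤ x) {x y u a : No.{u}} (hx : Rep G e x) (hy : Rep G e y)
    (hu : Rep G e u) (ha : Simpler a x) (hax : x < a) (hle : a + y ≤ u) :
    ∃ a', Rep G e a' ∧ Simpler a' x ∧ x < a' ∧ a' + y ≤ u := by
  have haG : a ∈ G := hG _ hx.1 a ha
  obtain ⟨k, hk, hinit⟩ := exists_rep hG he he0 hmin haG
  have hs := hinit.trans_simpler ha
  refine ⟨a + k • e, hk, hs, ?_, ?_⟩
  · by_contra hc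
    rw [not_lt] at hc
    obtain ⟨j, hj⟩ := coset_conv he he0 hmin haG hx.1 hc (j := 0)
      (by rw [zero_zsmul, add_zero]; exact hax.le)
    have h3 : x = (a + k • e) + (j - k) • e := by rw [hj, sub_zsmul]; abel
    exact hs.2 (hk.eq hx h3)
  · by_contra hc
    rw [not_le] at hc
    have hsum := Rep.add hG he he0 hmin hk hy
    have h1 := Rep.lt_of_lt he he0 hmin hu hsum hc k
    have h2 : u < a + y := by
      have : a + k • e + y = (a + y) + k • e := by abel
      rw [this] at h1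
      exact lt_of_add_lt_add_right h1
    exact absurd h2 (not_lt.2 hle)

/-- **The compression is additive.** -/
theorem psi_add (hG : IsInitial (G : Set No.{u})) (he : e ∈ G) (he0 : 0 < e)
    (hmin : ∀ x ∈ G, 0 < x → e ≤ x) (x y : No.{u}) (hx : Rep G e x) (hy : Rep G e y) :
    psi {x | Rep G e x} x + psi {x | Rep G e x} y = psi {x | Rep G e x} (x + y) := by
  have hS := hasMid_rep hG he he0 hmin
  have hxy := Rep.add hG he he0 hmin hx hy
  have ih1 : ∀ a, Simpler a x → Rep G e a →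
      psi {x | Rep G e x} a + psi {x | Rep G e x} y = psi {x | Rep G e x} (a + y) :=
    fun a ha hR => psi_add hG he he0 hmin a y hR hy
  have ih2 : ∀ b, Simpler b y → Rep G e b →
      psi {x | Rep G e x} x + psi {x | Rep G e x} b = psi {x | Rep G e x} (x + b) :=
    fun b hb hR => psi_add hG he he0 hmin x b hx hR
  apply add_eq_of
  · refine ⟨fun z hz => ?_, fun z hz => ?_⟩
    · obtain ⟨a, haS, ha, rfl⟩ := exists_of_simpler_psi hS hx hz
      rw [ih1 a ha haS, psi_lt_iff hS haS hx, psi_lt_iff hS hx haS]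
      exact ⟨fun h => psi_lt hS (Rep.add hG he he0 hmin haS hy) hxy (add_lt_add_right' h y),
        fun h => psi_lt hS hxy (Rep.add hG he he0 hmin haS hy) (add_lt_add_right' h y)⟩
    · obtain ⟨b, hbS, hb, rfl⟩ := exists_of_simpler_psi hS hy hz
      rw [ih2 b hb hbS, psi_lt_iff hS hbS hy, psi_lt_iff hS hy hbS]
      exact ⟨fun h => psi_lt hS (Rep.add hG he he0 hmin hx hbS) hxy (add_lt_add_left' h x),
        fun h => psi_lt hS hxy (Rep.add hG he he0 hmin hx hbS) (add_lt_add_left' h x)⟩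
  · intro d hd hmem
    obtain ⟨w, hwS, hw, rfl⟩ := exists_of_simpler_psi hS hxy hd
    rcases lt_trichotomy w (x + y) with h | h | h
    · rcases exists_left_option hw h with ⟨a, ha, hax, hle⟩ | ⟨b, hb, hby, hle⟩
      · obtain ⟨a', hR, hs, hlt, hle'⟩ := left_fix hG he he0 hmin hx hy hwS ha hax hle
        have h1 := (hmem.1 _ (simpler_psi hS hR hx hs)).1 (psi_lt hS hR hx hlt)
        rw [ih1 a' hs hR] at h1
        exact absurd h1 (not_lt.2 (psi_le hS hwS (Rep.add hG he he0 hmin hR hy) hle'))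
      · rw [add_comm] at hle
        obtain ⟨b', hR, hs, hlt, hle'⟩ := left_fix hG he he0 hmin hy hx hwS hb hby hle
        have h1 := (hmem.2 _ (simpler_psi hS hR hy hs)).1 (psi_lt hS hR hy hlt)
        rw [ih2 b' hs hR] at h1
        rw [add_comm] at hle'
        exact absurd h1 (not_lt.2 (psi_le hS hwS (Rep.add hG he he0 hmin hx hR) hle'))
    · exact hw.2 h
    · rcases exists_right_option hw h with ⟨a, ha, hax, hle⟩ | ⟨b, hb, hby, hle⟩
      · obtain ⟨a', hR, hs, hlt, hle'⟩ := right_fix hG he he0 hmin hx hy hwS ha hax hle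
        have h1 := (hmem.1 _ (simpler_psi hS hR hx hs)).2 (psi_lt hS hx hR hlt)
        rw [ih1 a' hs hR] at h1
        exact absurd h1 (not_lt.2 (psi_le hS (Rep.add hG he he0 hmin hR hy) hwS hle'))
      · rw [add_comm] at hle
        obtain ⟨b', hR, hs, hlt, hle'⟩ := right_fix hG he he0 hmin hy hx hwS hb hby hle
        have h1 := (hmem.2 _ (simpler_psi hS hR hy hs)).2 (psi_lt hS hy hR hlt)
        rw [ih2 b' hs hR] at h1
        rw [add_comm] at hle'
        exact absurd h1 (not_lt.2 (psi_le hS (Rep.add hG he he0 hmin hx hR) hwS hle'))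
termination_by (x.len, y.len)
decreasing_by
  · exact Prod.Lex.left _ _ (Simpler.len_lt ‹Simpler _ x›)
  · exact Prod.Lex.right _ (Simpler.len_lt ‹Simpler _ y›)

end

end No

end Pool.Agent.Lib.MP_c618e1_lc
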