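import Pool.Agent.Lib.MP_c618e1_lc.Add

/-!
The map `(x, n) ↦ E x n`: every sign of `x` is repeated `ω` times and then `|n|` copies of the sign
of `n` are appended. It is additive, and its values are omnific integers.
-/

universe u

namespace Pool.Agent.Lib.MP_c618e1_lc

open Ordinal

namespace No

theorem div_omega_lt {a c : Ordinal.{u}} : a / ω < c ↔ a < ω * c :=
  (Ordinal.lt_mul_iff_div_lt omega0_ne_zero).symm

theorem le_div_omega {a c : Ordinal.{u}} : c ≤ a / ω ↔ ω * c ≤ a :=
  (Ordinal.mul_le_iff_le_div omega0_ne_zero).symm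

/-- Repeat each sign of `x` `ω` times, then append `|n|` copies of the sign of `n`. -/
noncomputable def E (x : No.{u}) (n : ℤ) : No.{u} where
  sgn β := if β < ω * x.len then x.sgn (β / ω)
    else if β < ω * x.len + (n.natAbs : Ordinal.{u}) then SignType.sign n else 0
  exists_len := ⟨ω * x.len + (n.natAbs : Ordinal.{u}), fun β => by
    by_cases h1 : β < ω * x.len
    · have h2 : β / ω < x.len := div_omega_lt.2 h1
      have h3 : x.sgn (β / ω) ≠ 0 := (sgn_ne_zero_iff _ _).2 h2
      have h4 : ¬ ω * x.len + (n.natAbs : Ordinal.{u}) ≤ β :=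
        not_le.2 (h1.trans_le le_self_add)
      simp only [h1, if_true, h3, h4]
    · by_cases h2 : β < ω * x.len + (n.natAbs : Ordinal.{u})
      · simp only [h1, if_false, h2, if_true]
        have h3 : n ≠ 0 := by
          rintro rfl
          simp only [Int.natAbs_zero, Nat.cast_zero, add_zero] at h2
          exact h1 h2
        have h4 : SignType.sign n ≠ 0 := fun h => h3 (sign_eq_zero_iff.1 h)
        simp only [h4, not_le.2 h2]
      · simp only [h1, if_false, h2, true_iff]
        exact not_lt.1 h2⟩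

theorem E_sgn (x : No.{u}) (n : ℤ) (β : Ordinal.{u}) :
    (E x n).sgn β = if β < ω * x.len then x.sgn (β / ω)
      else if β < ω * x.len + (n.natAbs : Ordinal.{u}) then SignType.sign n else 0 := rfl

theorem E_sgn_lt {x : No.{u}} {n : ℤ} {β : Ordinal.{u}} (h : β < ω * x.len) :
    (E x n).sgn β = x.sgn (β / ω) := by rw [E_sgn, if_pos h]

theorem E_sgn_mid {x : No.{u}} {n : ℤ} {β : Ordinal.{u}} (h : ω * x.len ≤ β)
    (h' : β < ω * x.len + (n.natAbs : Ordinal.{u})) :
    (E x n).sgn β = SignType.sign n := by rw [E_sgn, if_neg (not_lt.2 h), if_pos h']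

theorem len_E (x : No.{u}) (n : ℤ) : (E x n).len = ω * x.len + (n.natAbs : Ordinal.{u}) := by
  apply len_eq_of
  intro β
  by_cases h1 : β < ω * x.len
  · rw [E_sgn_lt h1]
    have h2 : β / ω < x.len := div_omega_lt.2 h1
    have h3 : x.sgn (β / ω) ≠ 0 := (sgn_ne_zero_iff _ _).2 h2
    have h4 : ¬ ω * x.len + (n.natAbs : Ordinal.{u}) ≤ β :=
        not_le.2 (h1.trans_le le_self_add)
    simp only [h3, h4]
  · by_cases h2 : β < ω * x.len + (n.natAbs : Ordinal.{u})
    · rw [E_sgn_mid (not_lt.1 h1) h2]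
      have h3 : n ≠ 0 := by
        rintro rfl
        simp only [Int.natAbs_zero, Nat.cast_zero, add_zero] at h2
        exact h1 h2
      have h4 : SignType.sign n ≠ 0 := fun h => h3 (sign_eq_zero_iff.1 h)
      simp only [h4, not_le.2 h2]
    · rw [E_sgn, if_neg h1, if_neg h2]
      simp only [true_iff]
      exact not_lt.1 h2

/-- initial segments with the same body -/
theorem isInit_E_same {x : No.{u}} {k n : ℤ} (h1 : k.natAbs ≤ n.natAbs)
    (h2 : k ≠ 0 → SignType.sign k = SignType.sign n) : IsInit (E x k) (E x n) := by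
  intro β hβ
  rw [sgn_ne_zero_iff, len_E] at hβ
  by_cases h : β < ω * x.len
  · rw [E_sgn_lt h, E_sgn_lt h]
  · rw [E_sgn_mid (not_lt.1 h) hβ, E_sgn_mid (not_lt.1 h), h2]
    · rintro rfl
      simp only [Int.natAbs_zero, Nat.cast_zero, add_zero] at hβ
      exact h hβ
    · refine hβ.trans_le ?_
      have : (k.natAbs : Ordinal.{u}) ≤ n.natAbs := by exact_mod_cast h1
      gcongr

theorem simpler_E_same_pos {x : No.{u}} {k n : ℤ} (h0 : 0 ≤ k) (h : k < n) :
    Simpler (E x k) (E x n) ∧ E x k < E x n := by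
  have hinit : IsInit (E x k) (E x n) := by
    apply isInit_E_same
    · omega
    · intro hk
      rw [sign_pos (lt_of_le_of_ne h0 hk.symm), sign_pos (h0.trans_lt h)]
  have hlen : (E x k).len < (E x n).len := by
    rw [len_E, len_E]
    have : (k.natAbs : Ordinal.{u}) < n.natAbs := by
      have : k.natAbs < n.natAbs := by omega
      exact_mod_cast this
    gcongr
  have hs : Simpler (E x k) (E x n) := ⟨hinit, fun h => by rw [h] at hlen; exact lt_irrefl _ hlen⟩
  refine ⟨hs, hs.lt_iff_sgn.2 ?_⟩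
  rw [len_E, E_sgn_mid le_self_add, sign_pos (h0.trans_lt h)]
  rw [len_E, len_E] at hlen
  exact hlen

theorem simpler_E_same_neg {x : No.{u}} {k n : ℤ} (h0 : k ≤ 0) (h : n < k) :
    Simpler (E x k) (E x n) ∧ E x n < E x k := by
  have hinit : IsInit (E x k) (E x n) := by
    apply isInit_E_same
    · omega
    · intro hk
      rw [sign_neg (lt_of_le_of_ne h0 hk), sign_neg (h.trans_le h0)]
  have hlen : (E x k).len < (E x n).len := by
    rw [len_E, len_E]
    have : (k.natAbs : Ordinal.{u}) < n.natAbs := by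
      have : k.natAbs < n.natAbs := by omega
      exact_mod_cast this
    gcongr
  have hs : Simpler (E x k) (E x n) := ⟨hinit, fun h => by rw [h] at hlen; exact lt_irrefl _ hlen⟩
  refine ⟨hs, hs.gt_iff_sgn.2 ?_⟩
  rw [len_E, E_sgn_mid le_self_add, sign_neg (h.trans_le h0)]
  rw [len_E, len_E] at hlen
  exact hlen

theorem E_lt_same {x : No.{u}} {k n : ℤ} (h : k < n) : E x k < E x n := by
  rcases le_or_gt 0 k with h0 | h0
  · exact (simpler_E_same_pos h0 h).2
  · rcases le_or_gt n 0 with h1 | h1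
    · exact (simpler_E_same_neg h1 h).2
    · exact ((simpler_E_same_neg le_rfl h0).2).trans (simpler_E_same_pos le_rfl h1).2

theorem E_le_same {x : No.{u}} {k n : ℤ} (h : k ≤ n) : E x k ≤ E x n := by
  rcases eq_or_lt_of_le h with h | h
  · rw [h]
  · exact (E_lt_same h).le

theorem E_lt_same_iff {x : No.{u}} {k n : ℤ} : E x k < E x n ↔ k < n :=
  ⟨fun h => by
    by_contra hc
    exact absurd (E_le_same (not_lt.1 hc)) (not_le.2 h), E_lt_same⟩

theorem mul_div_omega (q : Ordinal.{u}) (j : ℕ) : (ω * q + (j : Ordinal.{u})) / ω = q := by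
  rw [Ordinal.mul_add_div _ omega0_ne_zero, Ordinal.div_eq_zero_of_lt (natCast_lt_omega0 j), add_zero]

theorem lt_mul_succ_of {q β : Ordinal.{u}} {j : ℕ} (h : β < ω * q + (j : Ordinal.{u})) :
    β < ω * Order.succ q := by
  rw [Ordinal.mul_succ]
  exact h.trans (by gcongr; exact natCast_lt_omega0 j)

/-- initial segments whose body is shorter -/
theorem simpler_E_body {v x : No.{u}} (hv : Simpler v x) (k n : ℤ)
    (hk : k ≠ 0 → SignType.sign k = x.sgn v.len) : Simpler (E v k) (E x n) ∧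
      (E x n).sgn (E v k).len = x.sgn v.len := by
  have hsucc : ω * Order.succ v.len ≤ ω * x.len := by
    gcongr
    exact Order.succ_le_of_lt hv.len_lt
  have hlt : (E v k).len < ω * x.len := by
    rw [len_E]
    refine lt_of_lt_of_le ?_ hsucc
    rw [Ordinal.mul_succ]
    gcongr
    exact natCast_lt_omega0 _
  refine ⟨⟨?_, ?_⟩, ?_⟩
  · intro β hβ
    rw [sgn_ne_zero_iff] at hβ
    rw [E_sgn_lt (hβ.trans hlt)]
    rw [len_E] at hβ
    by_cases h : β < ω * v.len
    · rw [E_sgn_lt h]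
      exact hv.1 _ ((sgn_ne_zero_iff _ _).2 (div_omega_lt.2 h))
    · rw [E_sgn_mid (not_lt.1 h) hβ, hk]
      · congr 1
        apply le_antisymm
        · rw [← Order.lt_succ_iff, div_omega_lt]
          exact lt_mul_succ_of hβ
        · rw [le_div_omega]
          exact not_lt.1 h
      · rintro rfl
        simp only [Int.natAbs_zero, Nat.cast_zero, add_zero] at hβ
        exact h hβ
  · intro heq
    have := congrArg len heq
    rw [len_E x] at this
    rw [this] at hlt
    exact absurd hlt (not_lt.2 le_self_add)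
  · rw [E_sgn_lt hlt, len_E, mul_div_omega]

theorem simpler_E_left {v x : No.{u}} (hv : Simpler v x) (hlt : v < x) (j : ℕ) (n : ℤ) :
    Simpler (E v j) (E x n) ∧ E v j < E x n := by
  have h1 := hv.lt_iff_sgn.1 hlt
  obtain ⟨h2, h3⟩ := simpler_E_body hv (j : ℤ) n (fun hk => by
    rw [h1, sign_pos]
    omega)
  exact ⟨h2, h2.lt_iff_sgn.2 (by rw [h3, h1])⟩

theorem simpler_E_right {v x : No.{u}} (hv : Simpler v x) (hlt : x < v) (j : ℕ) (n : ℤ) :
    Simpler (E v (-j)) (E x n) ∧ E x n < E v (-j) := by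
  have h1 := hv.gt_iff_sgn.1 hlt
  obtain ⟨h2, h3⟩ := simpler_E_body hv (-j : ℤ) n (fun hk => by
    rw [h1, sign_neg]
    omega)
  exact ⟨h2, h2.gt_iff_sgn.2 (by rw [h3, h1])⟩

theorem E_lt_of_lt {x y : No.{u}} (h : x < y) (n m : ℤ) : E x n < E y m := by
  obtain ⟨v, hvx, hvy, h1, h2⟩ := exists_mid h
  rcases eq_or_lt_of_le h1 with h3 | h3
  · subst h3
    refine lt_of_le_of_lt ?_ (simpler_E_left ⟨hvy, h.ne⟩ h n.natAbs m).2
    exact E_le_same (by omega)
  · rcases eq_or_lt_of_le h2 with h4 | h4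
    · subst h4
      refine lt_of_lt_of_le (simpler_E_right ⟨hvx, h.ne'⟩ h m.natAbs n).2 ?_
      exact E_le_same (by omega)
    · exact (simpler_E_right ⟨hvx, h3.ne'⟩ h3 0 n).2.trans
        (lt_of_le_of_lt (E_le_same (by simp)) (simpler_E_left ⟨hvy, h4.ne⟩ h4 0 m).2)

/-- Two initial segments of the same length are equal. -/
theorem IsInit.eq_of_len_eq {a b x : No.{u}} (ha : IsInit a x) (hb : IsInit b x)
    (h : a.len = b.len) : a = b :=
  (ha.of_len_le hb h.le).antisymm (hb.of_len_le ha h.ge)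

/-- All proper initial segments of `E x n`. -/
theorem simpler_E_cases {x d : No.{u}} {n : ℤ} (hd : Simpler d (E x n)) :
    (∃ k : ℤ, d = E x k ∧ (0 ≤ k ∧ k < n ∨ n < k ∧ k ≤ 0)) ∨
    (∃ v, Simpler v x ∧ v < x ∧ ∃ j : ℕ, d = E v j) ∨
    (∃ v, Simpler v x ∧ x < v ∧ ∃ j : ℕ, d = E v (-j)) := by
  have hlen := hd.len_lt
  rw [len_E] at hlen
  rcases lt_or_ge d.len (ω * x.len) with h | h
  · right
    set q := d.len / ω with hq
    have hqx : q < x.len := div_omega_lt.2 h
    have hvl : (x.trunc q).len = q := by rw [len_trunc, min_eq_left hqx.le]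
    have hv : Simpler (x.trunc q) x := by
      refine ⟨trunc_isInit _ _, fun heq => ?_⟩
      rw [heq] at hvl
      rw [hvl] at hqx
      exact lt_irrefl _ hqx
    obtain ⟨j, hj⟩ := lt_omega0.1 (Ordinal.mod_lt d.len omega0_ne_zero)
    have hdl : d.len = ω * q + j := by rw [← hj, hq, Ordinal.div_add_mod]
    rcases lt_trichotomy (x.trunc q) x with h1 | h1 | h1
    · left
      refine ⟨x.trunc q, hv, h1, j, ?_⟩
      apply hd.1.eq_of_len_eq (simpler_E_left hv h1 j n).1.1
      rw [len_E, hvl, hdl, Int.natAbs_natCast]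
    · exact absurd h1 hv.2
    · right
      refine ⟨x.trunc q, hv, h1, j, ?_⟩
      apply hd.1.eq_of_len_eq (simpler_E_right hv h1 j n).1.1
      rw [len_E, hvl, hdl, Int.natAbs_neg, Int.natAbs_natCast]
  · left
    obtain ⟨r, hr⟩ := exists_add_of_le h
    have hr' : r < (n.natAbs : Ordinal.{u}) := by
      rw [hr] at hlen
      exact lt_of_add_lt_add_left hlen
    obtain ⟨j, rfl⟩ := lt_omega0.1 (hr'.trans (natCast_lt_omega0 _))
    have hj : j < n.natAbs := by exact_mod_cast hr'
    rcases lt_trichotomy n 0 with hn | hn | hn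
    · refine ⟨-j, ?_, Or.inr ⟨by omega, by omega⟩⟩
      apply hd.1.eq_of_len_eq (simpler_E_same_neg (by omega) (by omega)).1.1
      rw [len_E, hr, Int.natAbs_neg, Int.natAbs_natCast]
    · subst hn; simp at hj
    · refine ⟨j, ?_, Or.inl ⟨by omega, by omega⟩⟩
      apply hd.1.eq_of_len_eq (simpler_E_same_pos (by omega) (by omega)).1.1
      rw [len_E, hr, Int.natAbs_natCast]

theorem E_le_of {u v : No.{u}} {k n : ℤ} (h : u ≤ v) (h' : k ≤ n) : E u k ≤ E v n := by
  rcases eq_or_lt_of_le h with h | h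
  · rw [h]; exact E_le_same h'
  · exact (E_lt_of_lt h _ _).le

/-- **The map `E` is additive.** -/
theorem E_add (x y : No.{u}) (n m : ℤ) : E x n + E y m = E (x + y) (n + m) := by
  have ih1 : ∀ v k, Simpler (E v k) (E x n) → E v k + E y m = E (v + y) (k + m) :=
    fun v k hs => E_add v y k m
  have ih2 : ∀ w l, Simpler (E w l) (E y m) → E x n + E w l = E (x + w) (n + l) :=
    fun w l hs => E_add x w n l
  apply add_eq_of
  · refine ⟨fun a ha => ?_, fun b hb => ?_⟩
    · rcases simpler_E_cases ha with ⟨k, rfl, hk⟩ | ⟨v, hv, hvx, j, rfl⟩ | ⟨v, hv, hvx, j, rfl⟩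
      · rw [ih1 _ _ ha, E_lt_same_iff, E_lt_same_iff, E_lt_same_iff, E_lt_same_iff]
        constructor <;> intro h <;> omega
      · rw [ih1 _ _ ha]
        exact ⟨fun _ => E_lt_of_lt (add_lt_add_right' hvx y) _ _,
          fun h => absurd h (not_lt.2 (E_lt_of_lt hvx _ _).le)⟩
      · rw [ih1 _ _ ha]
        exact ⟨fun h => absurd h (not_lt.2 (E_lt_of_lt hvx _ _).le),
          fun _ => E_lt_of_lt (add_lt_add_right' hvx y) _ _⟩
    · rcases simpler_E_cases hb with ⟨k, rfl, hk⟩ | ⟨v, hv, hvx, j, rfl⟩ | ⟨v, hv, hvx, j, rfl⟩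
      · rw [ih2 _ _ hb, E_lt_same_iff, E_lt_same_iff, E_lt_same_iff, E_lt_same_iff]
        constructor <;> intro h <;> omega
      · rw [ih2 _ _ hb]
        exact ⟨fun _ => E_lt_of_lt (add_lt_add_left' hvx x) _ _,
          fun h => absurd h (not_lt.2 (E_lt_of_lt hvx _ _).le)⟩
      · rw [ih2 _ _ hb]
        exact ⟨fun h => absurd h (not_lt.2 (E_lt_of_lt hvx _ _).le),
          fun _ => E_lt_of_lt (add_lt_add_left' hvx x) _ _⟩
  · intro d hd hmem
    rcases simpler_E_cases hd with ⟨k, rfl, hk | hk⟩ | ⟨w, hw, hwx, j, rfl⟩ | ⟨w, hw, hwx, j, rfl⟩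
    · rcases lt_or_ge 0 n with hn | hn
      · obtain ⟨hs, hl⟩ := simpler_E_same_pos (x := x) (k := n - 1) (n := n) (by omega) (by omega)
        have h1 := (hmem.1 _ hs).1 hl
        rw [ih1 _ _ hs, E_lt_same_iff] at h1
        omega
      · obtain ⟨hs, hl⟩ := simpler_E_same_pos (x := y) (k := m - 1) (n := m) (by omega) (by omega)
        have h1 := (hmem.2 _ hs).1 hl
        rw [ih2 _ _ hs, E_lt_same_iff] at h1
        omega
    · rcases lt_or_ge n 0 with hn | hn
      · obtain ⟨hs, hl⟩ := simpler_E_same_neg (x := x) (k := n + 1) (n := n) (by omega) (by omega)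
        have h1 := (hmem.1 _ hs).2 hl
        rw [ih1 _ _ hs, E_lt_same_iff] at h1
        omega
      · obtain ⟨hs, hl⟩ := simpler_E_same_neg (x := y) (k := m + 1) (n := m) (by omega) (by omega)
        have h1 := (hmem.2 _ hs).2 hl
        rw [ih2 _ _ hs, E_lt_same_iff] at h1
        omega
    · rcases exists_left_option hw hwx with ⟨a, ha, hax, hle⟩ | ⟨b, hb, hby, hle⟩
      · obtain ⟨hs, hl⟩ := simpler_E_left ha hax (j + m.natAbs) n
        have h1 := (hmem.1 _ hs).1 hl
        rw [ih1 _ _ hs] at h1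
        exact absurd h1 (not_lt.2 (E_le_of hle (by omega)))
      · obtain ⟨hs, hl⟩ := simpler_E_left hb hby (j + n.natAbs) m
        have h1 := (hmem.2 _ hs).1 hl
        rw [ih2 _ _ hs] at h1
        exact absurd h1 (not_lt.2 (E_le_of hle (by omega)))
    · rcases exists_right_option hw hwx with ⟨a, ha, hax, hle⟩ | ⟨b, hb, hby, hle⟩
      · obtain ⟨hs, hl⟩ := simpler_E_right ha hax (j + m.natAbs) n
        have h1 := (hmem.1 _ hs).2 hl
        rw [ih1 _ _ hs] at h1
        exact absurd h1 (not_lt.2 (E_le_of hle (by omega)))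
      · obtain ⟨hs, hl⟩ := simpler_E_right hb hby (j + n.natAbs) m
        have h1 := (hmem.2 _ hs).2 hl
        rw [ih2 _ _ hs] at h1
        exact absurd h1 (not_lt.2 (E_le_of hle (by omega)))
termination_by ((E x n).len, (E y m).len)
decreasing_by
  · exact Prod.Lex.left _ _ (Simpler.len_lt ‹Simpler _ (E x n)›)
  · exact Prod.Lex.right _ (Simpler.len_lt ‹Simpler _ (E y m)›)

theorem E_zero_one : E (0 : No.{u}) 1 = 1 := by
  apply ext_sgn
  intro β
  have h0 : (0 : No.{u}).len = 0 := len_eq_of fun β => by simp [zero_sgn]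
  rw [E_sgn, h0, mul_zero, if_neg (by simp), zero_add]
  simp only [Int.natAbs_one, Nat.cast_one]
  rfl

theorem E_zero_zero : E (0 : No.{u}) 0 = 0 := by
  apply ext_sgn
  intro β
  have h0 : (0 : No.{u}).len = 0 := len_eq_of fun β => by simp [zero_sgn]
  rw [E_sgn, h0, mul_zero, if_neg (by simp), zero_add]
  simp [zero_sgn]

/-- `x` is an omnific integer: `x = {x - 1 | x + 1}`, the simplest number strictly between `x - 1`
and `x + 1`. -/
def IsOmnific (x : No.{u}) : Prop := IsSimplest {z | x - 1 < z ∧ z < x + 1} x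

theorem E_add_one (x : No.{u}) (n : ℤ) : E x n + 1 = E x (n + 1) := by
  rw [← E_zero_one, E_add, add_zero]

theorem isOmnific_E (x : No.{u}) (n : ℤ) : IsOmnific (E x n) := by
  have hsub : E x n - 1 = E x (n - 1) := by
    rw [sub_eq_iff_eq_add, E_add_one, sub_add_cancel]
  rw [IsOmnific, hsub, E_add_one]
  have hmem : E x n ∈ {z | E x (n - 1) < z ∧ z < E x (n + 1)} :=
    ⟨E_lt_same (by omega), E_lt_same (by omega)⟩
  obtain ⟨z, hz⟩ := exists_isSimplest (I := {z | E x (n - 1) < z ∧ z < E x (n + 1)}) ⟨_, hmem⟩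
    (fun a ha b hb c hac hcb => ⟨ha.1.trans hac, hcb.trans hb.2⟩)
  have hinit := hz.2 _ hmem
  by_cases heq : z = E x n
  · rw [← heq]; exact hz
  · exfalso
    rcases simpler_E_cases ⟨hinit, heq⟩ with ⟨k, rfl, hk⟩ | ⟨v, hv, hvx, j, rfl⟩ |
      ⟨v, hv, hvx, j, rfl⟩
    · have h1 := hz.1.1
      have h2 := hz.1.2
      rw [E_lt_same_iff] at h1 h2
      omega
    · exact absurd hz.1.1 (not_lt.2 (E_lt_of_lt hvx _ _).le)
    · exact absurd hz.1.2 (not_lt.2 (E_lt_of_lt hvx _ _).le)

end No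

end Pool.Agent.Lib.MP_c618e1_lc
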